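import Mathlib
import Pool.Agent.Helper60.SB.Defs3

/-!
Module U18b: the lemma of Maurey, with the count of multisets.
-/

open Finset

namespace Pool.Agent.Helper81.SB

open Pool.Agent.Helper60.SB

/-- one step of the sampling -/
lemma step {ι A : Type} [Fintype ι] [Fintype A] [Nonempty A] (p : A → ℝ) (hp : ∀ a, 0 ≤ p a)
    (hp1 : ∑ a, p a = 1) (u : A → ι → ℝ) (R : ℝ) (hu : ∀ a, ∑ i, u a i ^ 2 ≤ R ^ 2)
    (y : ι → ℝ) (hy : ∀ i, y i = ∑ a, p a * u a i) (S : ι → ℝ) :
    ∃ a, ∑ i, (S i + (u a i - y i)) ^ 2 ≤ ∑ i, S i ^ 2 + R ^ 2 := by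
  by_contra hcon
  push Not at hcon
  have h1 : ∑ a, p a * ∑ i, (S i + (u a i - y i)) ^ 2
      = ∑ i, S i ^ 2 + (∑ a, p a * ∑ i, u a i ^ 2) - ∑ i, y i ^ 2 := by
    have h2 : ∀ i, ∑ a, p a * (S i + (u a i - y i)) ^ 2
        = S i ^ 2 + (∑ a, p a * u a i ^ 2) - y i ^ 2 := by
      intro i
      have e1 : ∀ a, p a * (S i + (u a i - y i)) ^ 2
          = p a * (S i - y i) ^ 2 + 2 * (S i - y i) * (p a * u a i) + p a * u a i ^ 2 := by
        intro a; ring
      rw [Finset.sum_congr rfl fun a _ => e1 a, Finset.sum_add_distrib, Finset.sum_add_distrib,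
        ← Finset.sum_mul, ← Finset.mul_sum, hp1, ← hy i]
      ring
    calc ∑ a, p a * ∑ i, (S i + (u a i - y i)) ^ 2
        = ∑ i, ∑ a, p a * (S i + (u a i - y i)) ^ 2 := by
          rw [Finset.sum_comm]
          exact Finset.sum_congr rfl fun a _ => Finset.mul_sum _ _ _
      _ = ∑ i, (S i ^ 2 + (∑ a, p a * u a i ^ 2) - y i ^ 2) :=
          Finset.sum_congr rfl fun i _ => h2 i
      _ = ∑ i, S i ^ 2 + (∑ a, p a * ∑ i, u a i ^ 2) - ∑ i, y i ^ 2 := by
          rw [Finset.sum_sub_distrib, Finset.sum_add_distrib]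
          congr 2
          rw [Finset.sum_comm]
          exact Finset.sum_congr rfl fun a _ => (Finset.mul_sum _ _ _).symm
  have h3 : ∑ a, p a * (∑ i, S i ^ 2 + R ^ 2) < ∑ a, p a * ∑ i, (S i + (u a i - y i)) ^ 2 := by
    refine Finset.sum_lt_sum (fun a _ => mul_le_mul_of_nonneg_left (hcon a).le (hp a)) ?_
    obtain ⟨a, ha⟩ : ∃ a, 0 < p a := by
      by_contra hc
      push Not at hc
      have : ∑ a, p a ≤ 0 := Finset.sum_nonpos fun a _ => hc a
      linarith
    exact ⟨a, Finset.mem_univ _, mul_lt_mul_of_pos_left (hcon a) ha⟩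
  rw [← Finset.sum_mul, hp1, h1] at h3
  have h4 : ∑ a, p a * ∑ i, u a i ^ 2 ≤ R ^ 2 := by
    calc ∑ a, p a * ∑ i, u a i ^ 2 ≤ ∑ a, p a * R ^ 2 :=
          Finset.sum_le_sum fun a _ => mul_le_mul_of_nonneg_left (hu a) (hp a)
      _ = R ^ 2 := by rw [← Finset.sum_mul, hp1, one_mul]
  have h5 : 0 ≤ ∑ i, y i ^ 2 := Finset.sum_nonneg fun i _ => sq_nonneg _
  linarith

/-- the sampling -/
lemma sample {ι A : Type} [Fintype ι] [Fintype A] [Nonempty A] (p : A → ℝ) (hp : ∀ a, 0 ≤ p a)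
    (hp1 : ∑ a, p a = 1) (u : A → ι → ℝ) (R : ℝ) (hu : ∀ a, ∑ i, u a i ^ 2 ≤ R ^ 2)
    (y : ι → ℝ) (hy : ∀ i, y i = ∑ a, p a * u a i) (n : ℕ) :
    ∃ M : Multiset A, Multiset.card M = n ∧
      ∑ i, ((M.map fun a => u a i).sum - n * y i) ^ 2 ≤ n * R ^ 2 := by
  induction n with
  | zero => exact ⟨0, rfl, by simp⟩
  | succ n ih =>
    obtain ⟨M, hM, h⟩ := ih
    obtain ⟨a, ha⟩ := step p hp hp1 u R hu y hy (fun i => (M.map fun a => u a i).sum - n * y i)
    refine ⟨a ::ₘ M, by rw [Multiset.card_cons, hM], ?_⟩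
    have e : ∀ i, (((a ::ₘ M).map fun a => u a i).sum - ((n + 1 : ℕ) : ℝ) * y i)
        = (M.map fun a => u a i).sum - n * y i + (u a i - y i) := by
      intro i
      rw [Multiset.map_cons, Multiset.sum_cons]
      push_cast; ring
    rw [Finset.sum_congr rfl fun i _ => by rw [e i]]
    refine ha.trans ?_
    push_cast
    linarith

/-- the number of multisets -/
lemma count (N n : ℕ) (hn : 0 < n) :
    ((2 * N + n).choose n : ℝ) ≤ Real.exp (n * (1 + Real.log (1 + (2 * N + 1) / n))) := by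
  have hn' : (0 : ℝ) < n := by exact_mod_cast hn
  have h0 : (0 : ℝ) < 1 + (2 * N + 1) / n := by positivity
  have h1 : Real.exp (n * (1 + Real.log (1 + (2 * N + 1) / n)))
      = Real.exp n * (1 + (2 * N + 1) / n) ^ n := by
    rw [mul_add, mul_one, Real.exp_add, mul_comm (n : ℝ) (Real.log _), Real.exp_mul,
      Real.exp_log h0, Real.rpow_natCast]
  rw [h1]
  have h2 : ((2 * N + n).choose n : ℝ) ≤ ((2 * N + n : ℕ) : ℝ) ^ n / (n.factorial : ℝ) :=
    Nat.choose_le_pow_div n (2 * N + n)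
  have h3 : (n : ℝ) ^ n / (n.factorial : ℝ) ≤ Real.exp n :=
    Real.pow_div_factorial_le_exp (n : ℝ) hn'.le n
  have h4 : ((2 * N + n : ℕ) : ℝ) ≤ n * (1 + (2 * N + 1) / n) := by
    have : (n : ℝ) * (1 + (2 * N + 1) / n) = n + (2 * N + 1) := by field_simp
    rw [this]; push_cast; linarith
  calc ((2 * N + n).choose n : ℝ) ≤ ((2 * N + n : ℕ) : ℝ) ^ n / (n.factorial : ℝ) := h2
    _ ≤ (n * (1 + (2 * N + 1) / n)) ^ n / (n.factorial : ℝ) := by gcongr
    _ = ((n : ℝ) ^ n / (n.factorial : ℝ)) * (1 + (2 * N + 1) / n) ^ n := by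
        rw [mul_pow]; ring
    _ ≤ Real.exp n * (1 + (2 * N + 1) / n) ^ n := by gcongr

/-- Maurey's lemma -/
theorem maurey {ι : Type} [Fintype ι] (N : ℕ) (v : Fin N → ι → ℝ) (R : ℝ) (hR : 0 ≤ R)
    (hv : ∀ i, ∑ a, v i a ^ 2 ≤ R ^ 2) (n : ℕ) (hn : 0 < n) :
    Cov {y : ι → ℝ | ∃ w : Fin N → ℝ, ∑ i, |w i| ≤ 1 ∧ y = ∑ i, w i • v i}
      (eucl (R / Real.sqrt n)) (n * (1 + Real.log (1 + (2 * N + 1) / n))) := by
  classical
  have hn' : (0 : ℝ) < n := by exact_mod_cast hn
  let A : Type := Option (Fin N × Bool)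
  let u : A → ι → ℝ := fun a => match a with
    | none => 0
    | some (i, true) => v i
    | some (i, false) => - v i
  have hu : ∀ a, ∑ i, u a i ^ 2 ≤ R ^ 2 := by
    rintro (_ | ⟨i, _ | _⟩)
    · simpa [u] using sq_nonneg R
    · simpa [u] using hv i
    · simpa [u] using hv i
  let c : Sym A n → ι → ℝ := fun M i => (1 / (n : ℝ)) * ((M : Multiset A).map fun a => u a i).sum
  refine ⟨Finset.univ.image c, ?_, ?_⟩
  · have hcard : Fintype.card (Sym A n) = (2 * N + n).choose n := by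
      rw [Sym.card_sym_eq_multichoose, Nat.multichoose_eq]
      have : Fintype.card A = 2 * N + 1 := by
        simp only [A, Fintype.card_option, Fintype.card_prod, Fintype.card_fin, Fintype.card_bool]
        ring
      rw [this]
      congr 1
      omega
    have h1 : ((Finset.univ.image c).card : ℝ) ≤ ((2 * N + n).choose n : ℝ) := by
      rw [← hcard]
      exact_mod_cast Finset.card_image_le
    exact h1.trans (count N n hn)
  · rintro y ⟨w, hw, rfl⟩
    let p : A → ℝ := fun a => match a with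
      | none => 1 - ∑ i, |w i|
      | some (i, true) => max (w i) 0
      | some (i, false) => max (- w i) 0
    have hp : ∀ a, 0 ≤ p a := by
      rintro (_ | ⟨i, _ | _⟩)
      · simpa [p] using hw
      · exact le_max_right _ _
      · exact le_max_right _ _
    have habs : ∀ x : ℝ, max x 0 + max (-x) 0 = |x| := by
      intro x
      rcases le_total 0 x with h | h
      · rw [max_eq_left h, max_eq_right (by linarith), abs_of_nonneg h]; ring
      · rw [max_eq_right h, max_eq_left (by linarith), abs_of_nonpos h]; ring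
    have hsub : ∀ x : ℝ, max x 0 - max (-x) 0 = x := by
      intro x
      rcases le_total 0 x with h | h
      · rw [max_eq_left h, max_eq_right (by linarith)]; ring
      · rw [max_eq_right h, max_eq_left (by linarith)]; ring
    have hp1 : ∑ a, p a = 1 := by
      rw [Fintype.sum_option, Fintype.sum_prod_type]
      have : ∀ i : Fin N, ∑ b : Bool, p (some (i, b)) = |w i| := by
        intro i
        rw [Fintype.sum_bool]
        exact habs (w i)
      rw [Finset.sum_congr rfl fun i _ => this i]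
      simp [p]
    have hy : ∀ j, (∑ i, w i • v i) j = ∑ a, p a * u a j := by
      intro j
      rw [Fintype.sum_option, Fintype.sum_prod_type, Finset.sum_apply]
      have h0 : p none * u none j = 0 := by simp [u]
      rw [h0, zero_add]
      refine Finset.sum_congr rfl fun i _ => ?_
      rw [Fintype.sum_bool]
      have : p (some (i, true)) * u (some (i, true)) j + p (some (i, false)) * u (some (i, false)) j
          = (max (w i) 0 - max (- w i) 0) * v i j := by
        simp only [p, u, Pi.neg_apply]; ring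
      rw [this, hsub, Pi.smul_apply, smul_eq_mul]
    obtain ⟨M, hM, h⟩ := sample p hp hp1 u R hu (∑ i, w i • v i) hy n
    refine ⟨c ⟨M, hM⟩, Finset.mem_image_of_mem _ (Finset.mem_univ _), ?_⟩
    unfold eucl
    have e : ∀ i, ((∑ i, w i • v i) i - c ⟨M, hM⟩ i) ^ 2
        = (1 / (n : ℝ)) ^ 2 * ((M.map fun a => u a i).sum - n * (∑ i, w i • v i) i) ^ 2 := by
      intro i
      have : c ⟨M, hM⟩ i = (1 / (n : ℝ)) * (M.map fun a => u a i).sum := rfl
      rw [this]
      field_simp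
      ring
    rw [Finset.sum_congr rfl fun i _ => e i, ← Finset.mul_sum, div_pow R, Real.sq_sqrt hn'.le]
    calc (1 / (n : ℝ)) ^ 2 * ∑ i, ((M.map fun a => u a i).sum - n * (∑ i, w i • v i) i) ^ 2
        ≤ (1 / (n : ℝ)) ^ 2 * (n * R ^ 2) := by gcongr
      _ = R ^ 2 / n := by field_simp

end Pool.Agent.Helper81.SB
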